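import Mathlib
import Pool.Agent.Lib.helper23.RSEDef

set_option autoImplicit false

namespace Pool.Agent.Results.MP_2e9c83_an.Main

open Pool.Agent.Lib.helper23.RSE Filter Topology

universe u

theorem result (𝕜 : Type) [RCLike 𝕜] (X : Type u) [NormedAddCommGroup X] [NormedSpace 𝕜 X]
    [CompleteSpace X]
    (h : ∀ (Z : Type u) [NormedAddCommGroup Z] [NormedSpace 𝕜 Z] [CompleteSpace Z],
      BPB (fun _ : X →L[𝕜] Z => True) IsRSE)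
    (Z : Type u) [NormedAddCommGroup Z] [NormedSpace 𝕜 Z] [CompleteSpace Z] :
    BPB (fun _ : X →L[𝕜] Z => True) IsASE := by
  intro ε hε
  obtain ⟨δ, d0, d1, d2⟩ : ∃ δ : ℝ, 0 < δ ∧ 4 * δ ≤ ε ∧ 4 * δ ≤ 1 :=
    ⟨min ε 1 / 4, by positivity, by linarith [min_le_left ε 1], by linarith [min_le_right ε 1]⟩
  obtain ⟨η, e0, e1, H⟩ := h (WithLp 1 (Z × X)) (δ / 4) (by positivity)
  refine ⟨η, e0, by linarith, fun T _ hT x hx hTx => ?_⟩
  let e := WithLp.prodContinuousLinearEquiv 1 𝕜 Z X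
  let U : X →L[𝕜] WithLp 1 (Z × X) :=
    e.symm.toContinuousLinearMap ∘L T.prod ((δ : 𝕜) • ContinuousLinearMap.id 𝕜 X)
  have hU : ∀ v, ‖U v‖ = ‖T v‖ + δ * ‖v‖ := fun v => by
    simp [U, e, WithLp.prod_norm_eq_of_L1, norm_smul, abs_of_pos d0]
  have n1 : ‖U‖ ≤ 1 + δ := U.opNorm_le_bound (by positivity) fun v => by
    have := T.le_opNorm v
    rw [hT] at this
    rw [hU]; linarith
  have n2 : 1 ≤ ‖U‖ := by
    have := U.le_opNorm x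
    rw [hU, hx] at this
    linarith
  have n0 : 0 < ‖U‖ := by linarith
  obtain ⟨S, -, ⟨x1, hx1, hS⟩, x0, hx0, s1, s2, s3, s4⟩ := H (((‖U‖⁻¹ : ℝ) : 𝕜) • U) trivial
    (by simp [norm_smul, n0.ne']) x hx (by
      rw [ContinuousLinearMap.smul_apply, norm_smul, hU, hx, RCLike.norm_ofReal,
        abs_of_pos (inv_pos.2 n0), lt_inv_mul_iff₀ n0]
      nlinarith)
  let S1 : X →L[𝕜] Z := ContinuousLinearMap.fst 𝕜 Z X ∘L e.toContinuousLinearMap ∘L S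
  let S2 : X →L[𝕜] X := ContinuousLinearMap.snd 𝕜 Z X ∘L e.toContinuousLinearMap ∘L S
  have a0 : ∀ v, ‖S v‖ = ‖S1 v‖ + ‖S2 v‖ := fun v => WithLp.prod_norm_eq_of_L1 _
  have i1 : ‖U‖⁻¹ ≤ 1 := inv_le_one_of_one_le₀ n2
  have i2 : 1 - δ ≤ ‖U‖⁻¹ := by rw [le_inv_comm₀ (by linarith) n0, le_inv_comm₀ n0 (by linarith),
    ← one_div, le_div_iff₀ n0]; nlinarith
  have a1 : ∀ v, ‖S1 v - ((‖U‖⁻¹ : ℝ) : 𝕜) • T v‖ + ‖S2 v - ((‖U‖⁻¹ * δ : ℝ) : 𝕜) • v‖ ≤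
      δ / 4 * ‖v‖ := fun v => by
    refine le_trans (le_of_eq ?_) (((S - ((‖U‖⁻¹ : ℝ) : 𝕜) • U).le_opNorm v).trans
      (mul_le_mul_of_nonneg_right s3.le (norm_nonneg v)))
    rw [WithLp.prod_norm_eq_of_L1, RCLike.ofReal_mul, mul_smul]
    rfl
  have a2 : ∀ v, δ / 2 * ‖v‖ ≤ ‖S2 v‖ ∧ ‖S2 v‖ ≤ 5 * δ / 4 * ‖v‖ := fun v => by
    have b1 := abs_le.1 ((abs_norm_sub_norm_le (S2 v) (((‖U‖⁻¹ * δ : ℝ) : 𝕜) • v)).trans
      ((le_add_of_nonneg_left (norm_nonneg _)).trans (a1 v)))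
    rw [norm_smul, RCLike.norm_ofReal, abs_of_pos (by positivity)] at b1
    have b2 := mul_nonneg d0.le (norm_nonneg v)
    constructor <;> nlinarith [b1.1, b1.2]
  have p1 : 0 < ‖S1 x0‖ := by nlinarith [a0 x0, (a2 x0).2]
  obtain ⟨g, g1, g2⟩ := exists_dual_vector'' 𝕜 (S2 x0)
  let w : Z := ((‖S1 x0‖⁻¹ : ℝ) : 𝕜) • S1 x0
  have w1 : ‖w‖ = 1 := by simp [w, norm_smul, p1.ne']
  let R : X →L[𝕜] Z := S1 + (g ∘L S2).smulRight w
  have r0 : ∀ v, ‖g (S2 v) • w‖ ≤ ‖S2 v‖ := fun v => by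
    rw [norm_smul, w1, mul_one]
    exact (g.le_opNorm _).trans (mul_le_of_le_one_left (norm_nonneg _) g1)
  have r1 : ∀ v, ‖R v‖ ≤ ‖S v‖ := fun v => by
    rw [a0]; exact (norm_add_le _ _).trans (add_le_add_right (r0 v) _)
  have r2 : ‖R x0‖ = 1 := by
    have : R x0 = ((‖S1 x0‖ + ‖S2 x0‖ : ℝ) : 𝕜) • w := by
      have : ((‖S1 x0‖ : ℝ) : 𝕜) ≠ 0 := by simpa using p1.ne'
      have e1 : ((‖S1 x0‖ : ℝ) : 𝕜) • w = S1 x0 := by
        simp only [w, smul_smul, RCLike.ofReal_inv, mul_inv_cancel₀ this, one_smul]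
      rw [RCLike.ofReal_add, add_smul, e1, ← g2]
      rfl
    rw [this, ← a0, s2]
    simpa using w1
  have r3 : ‖R‖ = 1 := le_antisymm (s1 ▸ R.opNorm_le_bound (norm_nonneg S) fun v =>
    (r1 v).trans (S.le_opNorm v)) (by simpa [r2, hx0] using R.le_opNorm x0)
  refine ⟨R, trivial, ⟨x1, hx1, fun y hy hy' => ?_⟩, x0, hx0, r3, r2, ?_, by linarith⟩
  · obtain ⟨σ, hσ, l, hl, hl'⟩ := hS y hy (tendsto_of_tendsto_of_tendsto_of_le_of_le
      (by rwa [r3, ← s1] at hy') tendsto_const_nhds (fun n => r1 _)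
      fun n => S.unit_le_opNorm _ (hy n))
    refine ⟨σ, hσ, l, hl, tendsto_iff_norm_sub_tendsto_zero.2 ?_⟩
    have := (tendsto_iff_norm_sub_tendsto_zero.1 hl').const_mul (δ / 2)⁻¹
    rw [mul_zero] at this
    refine squeeze_zero (fun _ => norm_nonneg _) (fun n => ?_) this
    rw [le_inv_mul_iff₀ (by positivity), ← map_smul, ← map_sub, a0]
    exact (a2 _).1.trans (le_add_of_nonneg_left (norm_nonneg _))
  · refine lt_of_le_of_lt ((R - T).opNorm_le_bound (M := 5 * δ / 2) (by positivity) fun v => ?_)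
      (by linarith)
    have c1 : (R - T) v = (S1 v - ((‖U‖⁻¹ : ℝ) : 𝕜) • T v) + g (S2 v) • w -
        ((1 - ‖U‖⁻¹ : ℝ) : 𝕜) • T v := by
      simp [R, sub_smul]
      abel
    have c2 : ‖((1 - ‖U‖⁻¹ : ℝ) : 𝕜) • T v‖ ≤ δ * ‖v‖ := by
      rw [norm_smul, RCLike.norm_ofReal, abs_of_nonneg (by linarith)]
      have := T.le_opNorm v
      rw [hT, one_mul] at this
      exact mul_le_mul (by linarith) this (norm_nonneg _) d0.le
    rw [c1]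
    refine (norm_sub_le _ _).trans ((add_le_add_left (norm_add_le _ _) _).trans ?_)
    linarith [a1 v, r0 v, (a2 v).2, norm_nonneg (S2 v - ((‖U‖⁻¹ * δ : ℝ) : 𝕜) • v)]

end Pool.Agent.Results.MP_2e9c83_an.Main
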